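import Mathlib

/-!
Definitions used in the hand-in statement: the proof system, random `k`-CNFs (helper33, helper62).
-/

set_option autoImplicit false
open scoped Classical

namespace PolyLines

/-- The 0/1 assignments of `n` variables, as vectors over the field with two elements. -/
abbrev Pt (n : ℕ) := Fin n → ZMod 2

/-- The function `g` is a polynomial of degree at most `d` over the field with two elements. -/
def DegLE {n : ℕ} (d : ℕ) (g : Pt n → ZMod 2) : Prop :=
  ∃ a : Finset (Fin n) → ZMod 2, ∀ x, g x = ∑ T ∈ Finset.univ.filter (fun T : Finset (Fin n) => T.card ≤ d),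
    a T * ∏ i ∈ T, x i

/-- A proof line: the disjunction of the polynomial equations `g = 0`, `g ∈ E`, of degree at most `e` (any number of
them) and of one polynomial equation `p = 0` of degree at most `t`. -/
structure Line (n e t : ℕ) where
  E : Set (Pt n → ZMod 2)
  hE : ∀ g ∈ E, DegLE e g
  p : Pt n → ZMod 2
  hp : DegLE t p

/-- The line is true at the assignment `x`. -/
def Line.Holds {n e t : ℕ} (l : Line n e t) (x : Pt n) : Prop := (∃ g ∈ l.E, g x = 0) ∨ l.p x = 0

/-- A clause with `k` literals on distinct variables: the variables and the values which make the literals true. -/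
abbrev KClause (n k : ℕ) := (Fin k ↪ Fin n) × (Fin k → ZMod 2)

/-- The clause is true at the assignment `x`. -/
def KClause.Holds {n k : ℕ} (C : KClause n k) (x : Pt n) : Prop := ∃ i, x (C.1 i) = C.2 i

/-- The `k`-CNF `Φ` has a refutation with `N` lines: every line is implied by a clause of `Φ` or by at most `f` earlier
lines; the last line is false everywhere. -/
def Refutes {n k m : ℕ} (e t f : ℕ) (Φ : Fin m → KClause n k) (N : ℕ) : Prop :=
  ∃ l : ℕ → Line n e t, 1 ≤ N ∧ (∀ x, ¬ (l (N - 1)).Holds x) ∧
    ∀ i < N, (∃ j, ∀ x, (Φ j).Holds x → (l i).Holds x) ∨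
      ∃ J : Finset ℕ, J.card ≤ f ∧ (∀ j ∈ J, j < i) ∧ ∀ x, (∀ j ∈ J, (l j).Holds x) → (l i).Holds x

/-- The `k`-CNF is satisfiable. -/
def Satisfiable {n k m : ℕ} (Φ : Fin m → KClause n k) : Prop := ∃ x : Pt n, ∀ j, (Φ j).Holds x

end PolyLines
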