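import Pool.Agent.H62.PL.Defs

/-! Every unsatisfiable `k`-CNF has a refutation: the full decision tree, every line a clause (helper62). -/

set_option autoImplicit false
open scoped Classical

namespace PolyLines

/-- the nodes of the decision tree -/
abbrev EasyNode (n : ℕ) := Σ k : Fin (n + 1), (Fin (k : ℕ) → ZMod 2)

theorem easy_deg {n : ℕ} (v : Fin n) (c : ZMod 2) : DegLE 1 (fun x : Pt n => x v + c) := by
  refine ⟨fun T => if T = {v} then 1 else if T = ∅ then c else 0, fun x => ?_⟩
  have h1 : ({({v} : Finset (Fin n)), ∅} : Finset (Finset (Fin n))) ⊆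
      Finset.univ.filter (fun T : Finset (Fin n) => T.card ≤ 1) := by
    intro T hT
    rw [Finset.mem_insert, Finset.mem_singleton] at hT
    rw [Finset.mem_filter]
    rcases hT with rfl | rfl
    · exact ⟨Finset.mem_univ _, by simp⟩
    · exact ⟨Finset.mem_univ _, by simp⟩
  rw [← Finset.sum_subset h1]
  · rw [Finset.sum_pair (Finset.singleton_ne_empty v)]
    simp
  · intro T _ hT
    rw [Finset.mem_insert, Finset.mem_singleton, not_or] at hT
    change (if T = {v} then (1 : ZMod 2) else if T = ∅ then c else 0) * _ = 0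
    rw [if_neg hT.1, if_neg hT.2, zero_mul]

/-- the clause of a node -/
def easyLine {n : ℕ} (s : EasyNode n) : Line n 1 0 where
  E := {g | ∃ j : Fin (s.1 : ℕ), g = fun x => x (Fin.castLE (Nat.lt_succ_iff.1 s.1.2) j) + (s.2 j + 1)}
  hE := by
    rintro g ⟨j, rfl⟩
    exact easy_deg _ _
  p := fun _ => 1
  hp := ⟨fun _ => 1, fun x => by
    rw [Finset.sum_eq_single ∅]
    · simp
    · intro T hT hT'
      rw [Finset.mem_filter] at hT
      exact absurd (Finset.card_eq_zero.1 (Nat.le_zero.1 hT.2)) hT'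
    · intro h
      exact absurd (Finset.mem_filter.2 ⟨Finset.mem_univ _, by simp⟩) h⟩

theorem zmod2_aux {a c : ZMod 2} : a + (c + 1) ≠ 0 ↔ a = c := by
  revert a c
  decide

theorem zmod2_cases (z : ZMod 2) : z = 0 ∨ z = 1 := by
  revert z
  decide

theorem easyLine_false {n : ℕ} (s : EasyNode n) (x : Pt n) :
    ¬ (easyLine s).Holds x ↔ ∀ j : Fin (s.1 : ℕ), x (Fin.castLE (Nat.lt_succ_iff.1 s.1.2) j) = s.2 j := by
  unfold Line.Holds easyLine
  constructor
  · intro h j
    rw [← zmod2_aux]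
    intro h1
    exact h (Or.inl ⟨_, ⟨j, rfl⟩, h1⟩)
  · rintro h (⟨g, ⟨j, rfl⟩, h1⟩ | h1)
    · exact zmod2_aux.2 (h j) h1
    · exact absurd h1 one_ne_zero

theorem complete {n k m : ℕ} (Φ : Fin m → KClause n k) (h : ¬ Satisfiable Φ) :
    ∃ N : ℕ, N ≤ 2 ^ (n + 1) ∧ Refutes 1 0 2 Φ N := by
  have hcard : Fintype.card (EasyNode n) = 2 ^ (n + 1) - 1 := by
    rw [Fintype.card_sigma]
    simp only [Fintype.card_fun, ZMod.card, Fintype.card_fin]
    rw [Fin.sum_univ_eq_sum_range (fun k => 2 ^ k), Nat.geomSum_eq (le_refl 2)]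
    simp
  have hpos : 0 < Fintype.card (EasyNode n) := Fintype.card_pos_iff.2 ⟨⟨⟨0, Nat.succ_pos _⟩, Fin.elim0⟩⟩
  refine ⟨Fintype.card (EasyNode n), by rw [hcard]; exact Nat.sub_le _ _, ?_⟩
  let e0 : Fin (Fintype.card (EasyNode n)) ≃ EasyNode n := (Fintype.equivFin (EasyNode n)).symm
  let ρ : Fin (Fintype.card (EasyNode n)) → ℕ := fun i => n - (e0 i).1
  let e : Fin (Fintype.card (EasyNode n)) ≃ EasyNode n := (Tuple.sort ρ).trans e0
  have hmono : Monotone (fun i => n - ((e i).1 : ℕ)) := Tuple.monotone_sort ρ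
  have hlt : ∀ (s : EasyNode n) (i), (e i).1 < s.1 → e.symm s < i := by
    intro s i hs
    by_contra hc
    have h1 := hmono (not_lt.1 hc)
    simp only [Equiv.apply_symm_apply] at h1
    have h2 := s.1.2
    have h3 : ((e i).1 : ℕ) < s.1 := hs
    omega
  let l : ℕ → Line n 1 0 := fun i => if hi : i < Fintype.card (EasyNode n) then easyLine (e ⟨i, hi⟩)
    else easyLine ⟨⟨0, Nat.succ_pos _⟩, Fin.elim0⟩
  have hl : ∀ i (hi : i < Fintype.card (EasyNode n)), l i = easyLine (e ⟨i, hi⟩) := fun i hi => dif_pos hi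
  refine ⟨l, hpos, ?_, ?_⟩
  · intro v
    rw [hl _ (Nat.sub_lt hpos Nat.one_pos), easyLine_false]
    have h1 : (e ⟨Fintype.card (EasyNode n) - 1, Nat.sub_lt hpos Nat.one_pos⟩).1.1 = 0 := by
      have h2 := hmono (show e.symm ⟨⟨0, Nat.succ_pos _⟩, Fin.elim0⟩ ≤
        ⟨Fintype.card (EasyNode n) - 1, Nat.sub_lt hpos Nat.one_pos⟩ from Nat.le_sub_one_of_lt (Fin.is_lt _))
      simp only [Equiv.apply_symm_apply] at h2
      have h3 := (e ⟨Fintype.card (EasyNode n) - 1, Nat.sub_lt hpos Nat.one_pos⟩).1.2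
      omega
    intro j
    have h2 := j.2
    omega
  · intro i hi
    rw [hl i hi]
    obtain ⟨s, hs⟩ : ∃ s, s = e ⟨i, hi⟩ := ⟨_, rfl⟩
    rw [← hs]
    rcases Nat.lt_or_ge (s.1 : ℕ) n with hk | hk
    · right
      let c : ZMod 2 → EasyNode n := fun z => ⟨⟨s.1 + 1, by omega⟩, Fin.snoc s.2 z⟩
      refine ⟨{((e.symm (c 0) : Fin _) : ℕ), ((e.symm (c 1) : Fin _) : ℕ)}, Finset.card_le_two, ?_, ?_⟩
      · intro j hj
        have : ∃ z, j = ((e.symm (c z) : Fin _) : ℕ) := by
          rw [Finset.mem_insert, Finset.mem_singleton] at hj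
          rcases hj with hj | hj
          · exact ⟨_, hj⟩
          · exact ⟨_, hj⟩
        obtain ⟨z, rfl⟩ := this
        have h1 : e.symm (c z) < ⟨i, hi⟩ := by
          apply hlt
          rw [← hs, Fin.lt_def]
          exact Nat.lt_succ_self _
        exact h1
      · intro v hv
        by_contra hc
        rw [easyLine_false] at hc
        obtain ⟨z, hz⟩ : ∃ z, z = v (Fin.castLE (by omega : (s.1 : ℕ) + 1 ≤ n) (Fin.last _)) := ⟨_, rfl⟩
        have h1 := hv ((e.symm (c z) : Fin _) : ℕ) (by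
          rw [Finset.mem_insert, Finset.mem_singleton]
          rcases zmod2_cases z with h0 | h0
          · left; rw [h0]
          · right; rw [h0])
        rw [hl _ (Fin.is_lt _)] at h1
        have h2 : e ⟨((e.symm (c z) : Fin _) : ℕ), Fin.is_lt _⟩ = c z := Equiv.apply_symm_apply e (c z)
        rw [h2] at h1
        refine absurd h1 ((easyLine_false (c z) v).2 ?_)
        intro j
        refine Fin.lastCases ?_ (fun j => ?_) j
        · change _ = (Fin.snoc s.2 z : Fin ((s.1 : ℕ) + 1) → ZMod 2) (Fin.last _)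
          rw [Fin.snoc_last, hz]
        · change _ = (Fin.snoc s.2 z : Fin ((s.1 : ℕ) + 1) → ZMod 2) (Fin.castSucc j)
          rw [Fin.snoc_castSucc]
          exact hc j
    · left
      have hk' : (s.1 : ℕ) = n := le_antisymm (Nat.lt_succ_iff.1 s.1.2) hk
      let a : Pt n := fun v => s.2 (Fin.cast hk'.symm v)
      have h0 : ∃ j, ¬ (Φ j).Holds a := by
        by_contra hc
        push Not at hc
        exact h ⟨a, hc⟩
      obtain ⟨j, hj⟩ := h0
      refine ⟨j, fun v hv => ?_⟩
      by_contra hc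
      rw [easyLine_false] at hc
      have : v = a := by
        funext u
        have h1 := hc (Fin.cast hk'.symm u)
        have h2 : Fin.castLE (Nat.lt_succ_iff.1 s.1.2) (Fin.cast hk'.symm u) = u := by
          ext
          rfl
        rw [h2] at h1
        exact h1
      rw [this] at hv
      exact hj hv

end PolyLines
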