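import Pool.Agent.H62.PL.Tr
import Pool.Agent.H62.RC.Unsat
import Pool.Agent.H87.RE.Core
import Pool.Agent.H33.RP.Ec
import Pool.Agent.H33.RP.Av
import Pool.Agent.H33.RP.Nb

/-! The exponential lower bound (helper62). -/

set_option autoImplicit false
open scoped Classical

namespace PolyLines

/-- the two versions of clauses -/
def tr {n k : ℕ} : KClause n k ≃ LovaszSchrijver.KClause n k :=
  Equiv.prodCongr (Equiv.refl _) (Equiv.arrowCongr (Equiv.refl _) (finTwoEquiv : ZMod 2 ≃ Bool))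

theorem tr_card (n k : ℕ) : Fintype.card (KClause n k) = Fintype.card (LovaszSchrijver.KClause n k) :=
  Fintype.card_congr tr

theorem tr_fst {n k : ℕ} (C : KClause n k) : (tr C).1 = C.1 := rfl

/-- transfer of counts -/
theorem tr_count {n k m : ℕ} (P : (Fin m → LovaszSchrijver.KClause n k) → Prop) [DecidablePred P]
    [DecidablePred fun Φ : Fin m → KClause n k => P (fun j => tr (Φ j))] :
    (Finset.univ.filter (fun Φ : Fin m → KClause n k => P (fun j => tr (Φ j)))).card =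
      (Finset.univ.filter (fun Φ : Fin m → LovaszSchrijver.KClause n k => P Φ)).card := by
  let E : (Fin m → KClause n k) ≃ (Fin m → LovaszSchrijver.KClause n k) := Equiv.arrowCongr (Equiv.refl _) tr
  refine Finset.card_equiv E fun Φ => ?_
  rw [Finset.mem_filter, Finset.mem_filter]
  exact ⟨fun h => ⟨Finset.mem_univ _, h.2⟩, fun h => ⟨Finset.mem_univ _, h.2⟩⟩

theorem main_aux (k Δ e f : ℕ) (hk : 3 ≤ k) (hΔ : 1 ≤ Δ) (he1 : 1 ≤ e) (he : e < k) :
    ∃ c : ℕ, 1 ≤ c ∧ ∀ n m t : ℕ, m ≤ Δ * n → c * t ≤ n →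
    n * (Finset.univ.filter (fun Φ : Fin m → KClause n k => ∃ N < 2 ^ (n / c), Refutes e t f Φ N)).card ≤
      c * Fintype.card (KClause n k) ^ m := by
  obtain ⟨A, hA⟩ : ∃ A : ℕ, A = (96 * k) ^ 2 * Δ := ⟨_, rfl⟩
  have hA1 : 1 ≤ A := by
    rw [hA]
    exact Nat.mul_pos (by positivity) hΔ
  obtain ⟨b, hb⟩ : ∃ b : ℕ, b = 32 * k * A ^ 4 := ⟨_, rfl⟩
  have hb1 : 1 ≤ b := by
    rw [hb]
    exact Nat.mul_pos (by omega) (Nat.pow_pos hA1)
  obtain ⟨c0, u, d, s, hc0, hu, hd, hs, hnum⟩ := H33RP.numeric k Δ f b e hk hΔ hb1 he1 he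
  obtain ⟨c, hc⟩ : ∃ c : ℕ, c = c0 + 2 * k ^ 2 + (12 * k * A ^ 2 + 1) := ⟨_, rfl⟩
  refine ⟨c, by omega, fun n m t hm ht => ?_⟩
  rcases lt_or_ge n c with hn | hn
  · refine (Nat.mul_le_mul_left n (Finset.card_le_univ _)).trans ?_
    rw [Fintype.card_fun, Fintype.card_fin]
    exact Nat.mul_le_mul_right _ hn.le
  have hcpos : 0 < c := by omega
  have hnc : n / c ≤ n / c0 := Nat.div_le_div_left (by omega) (by omega)
  have htc : t ≤ n / c := by
    rw [Nat.le_div_iff_mul_le hcpos, mul_comm]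
    exact ht
  obtain ⟨h1, h2, h3, h4, h5, h6, h7⟩ := hnum n (by omega)
  obtain ⟨B, hB⟩ : ∃ B : ℕ, B = n / b := ⟨_, rfl⟩
  obtain ⟨D, hD⟩ : ∃ D : ℕ, D = n / d := ⟨_, rfl⟩
  obtain ⟨w, hw⟩ : ∃ w : ℕ, w = n / u := ⟨_, rfl⟩
  obtain ⟨s0, hs0⟩ : ∃ s0 : ℕ, s0 = n / s := ⟨_, rfl⟩
  rw [← hB, ← hD, ← hw] at h1 h2
  rw [← hD] at h3 h4 h5 h7
  rw [← hs0] at h5 h6 h7
  rw [← hw] at h7
  obtain ⟨K, hK⟩ : ∃ K : ℕ, K = Fintype.card (KClause n k) := ⟨_, rfl⟩
  have hbB : 32 * k * ((96 * k) ^ 2 * Δ) ^ 4 * B ≤ n := by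
    rw [← hA, ← hb, hB]
    exact Nat.mul_div_le n b
  have h2k : 2 * k ^ 2 ≤ n := by omega
  have hDB : 16 * D ≤ B := by omega
  have e1 := H33RP.exp_count (n := n) (k := k) (m := m) (Δ := Δ) (B := B) hk hΔ h2k hm hbB
  have e2 := H33RP.bad_avg (n := n) (k := k) (m := m) (Δ := Δ) (B := B) (s0 := s0) (D := D) hk hΔ h2k hm hbB hDB
    (by omega) h5
  rw [← tr_card, ← hK] at e1 e2
  rw [← tr_count (fun Φ => ¬ H33RP.Exp (H33RP.SS Φ) B)] at e1
  rw [← tr_count (fun Φ => H33RP.Exp (H33RP.SS Φ) B ∧ n.choose D <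
      2 * ((Finset.powersetCard D (Finset.univ : Finset (Fin n))).filter
        (fun T => s0 < (H33RP.Spt (H33RP.SS Φ) B T).card)).card)] at e2
  rw [← hK]
  -- the bad formulas
  have key : Finset.univ.filter (fun Φ : Fin m → KClause n k => ∃ N < 2 ^ (n / c), Refutes e t f Φ N) ⊆
      Finset.univ.filter (fun Φ : Fin m → KClause n k => ¬ H33RP.Exp (H33RP.SS (fun j => tr (Φ j))) B) ∪
      Finset.univ.filter (fun Φ : Fin m → KClause n k => H33RP.Exp (H33RP.SS (fun j => tr (Φ j))) B ∧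
        n.choose D < 2 * ((Finset.powersetCard D (Finset.univ : Finset (Fin n))).filter
          (fun T => s0 < (H33RP.Spt (H33RP.SS (fun j => tr (Φ j))) B T).card)).card) := by
    intro Φ hΦ
    rw [Finset.mem_filter] at hΦ
    obtain ⟨_, N, hN, hR⟩ := hΦ
    by_contra hcon
    rw [Finset.mem_union, Finset.mem_filter, Finset.mem_filter, not_or] at hcon
    have hE : H33RP.Exp (H33RP.SS (fun j => tr (Φ j))) B := by
      by_contra h
      exact hcon.1 ⟨Finset.mem_univ _, h⟩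
    have hbad : 2 * ((Finset.powersetCard D (Finset.univ : Finset (Fin n))).filter
          (fun T => s0 < (H33RP.Spt (H33RP.SS (fun j => tr (Φ j))) B T).card)).card ≤ n.choose D := by
      by_contra h
      exact hcon.2 ⟨Finset.mem_univ _, hE, not_le.1 h⟩
    obtain ⟨As, hs1, hs2, hs3⟩ := hR.sets
    have hDn : D < n := by omega
    have hnD : (0 : ℝ) < (n : ℝ) - D := by
      have : (D : ℝ) < n := by exact_mod_cast hDn
      linarith
    have hq : (D : ℝ) / (n - D) * ((n : ℝ) - D) = D := by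
      field_simp
    have hq1 : (D : ℝ) / (n - D) < 1 := by
      rw [div_lt_one hnD]
      have : 3 * (D : ℝ) ≤ n := by exact_mod_cast h4
      have hD1 : (1 : ℝ) ≤ D := by exact_mod_cast h3
      linarith
    have hcore := H87RE.core (n := n) (k := k) (e := e) (f := f) (t := t) (w := w) (B := B) (E := B / 16) (D := D)
      (s0 := s0) (N := N) (Sv Φ) (sv Φ) hE (Sv_card Φ) (by omega) (by omega) (by omega) hbad hDB h3 hDn hq hq1
      (by
        have : e * w + t ≤ e * w + n / c0 := by omega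
        have := Nat.mul_le_mul_left (f + 1) this
        omega)
      (by omega) As hs1 hs2 hs3
    have hN2 : (N : ℝ) ≤ 2 ^ (n / c0) := by
      have h8 : N ≤ 2 ^ (n / c0) := hN.le.trans (Nat.pow_le_pow_right (by norm_num) hnc)
      exact_mod_cast h8
    have hq0 : 0 ≤ (D : ℝ) / (n - D) := div_nonneg (Nat.cast_nonneg _) hnD.le
    have hqe : ((D : ℝ) / (n - D)) ^ e ≤ 1 := pow_le_one₀ hq0 hq1.le
    have hX : 0 ≤ (1 - ((D : ℝ) / (n - D)) ^ e / 2) ^ w := pow_nonneg (by linarith) _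
    have hle : 2 * ((D : ℝ) + 1) * (n + 1) * N * (1 - ((D : ℝ) / (n - D)) ^ e / 2) ^ w * H33RP.Bin n (k * s0) ≤
        2 * ((n : ℝ) + 1) * ((D : ℝ) + 1) * 2 ^ (n / c0) * H33RP.Bin n (k * s0) *
        (1 - ((D : ℝ) / (n - D)) ^ e / 2) ^ w := by
      calc 2 * ((D : ℝ) + 1) * (n + 1) * N * (1 - ((D : ℝ) / (n - D)) ^ e / 2) ^ w * H33RP.Bin n (k * s0)
          = (2 * ((n : ℝ) + 1) * ((D : ℝ) + 1) * H33RP.Bin n (k * s0) *
            (1 - ((D : ℝ) / (n - D)) ^ e / 2) ^ w) * N := by ring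
        _ ≤ (2 * ((n : ℝ) + 1) * ((D : ℝ) + 1) * H33RP.Bin n (k * s0) *
            (1 - ((D : ℝ) / (n - D)) ^ e / 2) ^ w) * 2 ^ (n / c0) := by
            refine mul_le_mul_of_nonneg_left hN2 ?_
            positivity
        _ = _ := by ring
    exact absurd (hcore.trans hle) (not_le.2 h7)
  have h8 := (Finset.card_le_card key).trans (Finset.card_union_le _ _)
  have h9 : n * (Finset.univ.filter (fun Φ : Fin m → KClause n k => H33RP.Exp (H33RP.SS (fun j => tr (Φ j))) B ∧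
        n.choose D < 2 * ((Finset.powersetCard D (Finset.univ : Finset (Fin n))).filter
          (fun T => s0 < (H33RP.Spt (H33RP.SS (fun j => tr (Φ j))) B T).card)).card)).card ≤ K ^ m := by
    have h10 := Nat.mul_le_mul_left n e2
    have h11 : n * (2 * K ^ m) ≤ K ^ m * 2 ^ s0 := by
      calc n * (2 * K ^ m) = K ^ m * (2 * n) := by ring
        _ ≤ K ^ m * 2 ^ s0 := Nat.mul_le_mul_left _ h6
    rw [← mul_assoc] at h10
    exact Nat.le_of_mul_le_mul_right (h10.trans h11) (by positivity)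
  calc n * (Finset.univ.filter (fun Φ : Fin m → KClause n k => ∃ N < 2 ^ (n / c), Refutes e t f Φ N)).card
      ≤ n * (_ + _) := Nat.mul_le_mul_left n h8
    _ = n * _ + n * _ := Nat.mul_add _ _ _
    _ ≤ 12 * k * ((96 * k) ^ 2 * Δ) ^ 2 * K ^ m + K ^ m := Nat.add_le_add e1 h9
    _ = (12 * k * A ^ 2 + 1) * K ^ m := by rw [hA]; ring
    _ ≤ c * K ^ m := Nat.mul_le_mul_right _ (by omega)

theorem main (k Δ e f : ℕ) (hk : 3 ≤ k) (he : e < k) :
    ∃ c : ℕ, 1 ≤ c ∧ ∀ n m t : ℕ, m ≤ Δ * n → c * t ≤ n →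
    n * (Finset.univ.filter (fun Φ : Fin m → KClause n k => ∃ N < 2 ^ (n / c), Refutes e t f Φ N)).card ≤
      c * Fintype.card (KClause n k) ^ m := by
  obtain ⟨c, hc, h⟩ := main_aux k (Δ + 1) (max e 1) f hk (by omega) (le_max_right _ _) (by omega)
  refine ⟨c, hc, fun n m t hm ht => ?_⟩
  refine le_trans (Nat.mul_le_mul_left n (Finset.card_le_card ?_)) (h n m t (hm.trans (Nat.mul_le_mul_right _ (by omega))) ht)
  intro Φ hΦ
  rw [Finset.mem_filter] at hΦ ⊢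
  obtain ⟨h1, N, hN, hR⟩ := hΦ
  exact ⟨h1, N, hN, hR.mono_e (le_max_left _ _)⟩

theorem unsat {n k m : ℕ} (hn : 16 ≤ n) (hm : n * 2 ^ k ≤ m) :
    n * (Finset.univ.filter (fun Φ : Fin m → KClause n k => Satisfiable Φ)).card ≤ Fintype.card (KClause n k) ^ m := by
  rw [tr_card]
  have h := H62RC.unsat_count (n := n) (k := k) (m := m) hn hm
  rw [← tr_count (fun Φ => LovaszSchrijver.Satisfiable Φ)] at h
  refine le_trans (le_of_eq ?_) h
  congr 2
  ext Φ
  rw [Finset.mem_filter, Finset.mem_filter]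
  refine and_congr_right fun _ => ?_
  unfold Satisfiable LovaszSchrijver.Satisfiable
  constructor
  · rintro ⟨x, hx⟩
    refine ⟨fun i => (finTwoEquiv : ZMod 2 ≃ Bool) (x i), fun j => ?_⟩
    obtain ⟨i, hi⟩ := hx j
    refine ⟨_, ⟨i, rfl⟩, ?_⟩
    show (finTwoEquiv : ZMod 2 ≃ Bool) (x ((Φ j).1 i)) = (finTwoEquiv : ZMod 2 ≃ Bool) ((Φ j).2 i)
    rw [hi]
  · rintro ⟨v, hv⟩
    refine ⟨fun i => (finTwoEquiv : ZMod 2 ≃ Bool).symm (v i), fun j => ?_⟩
    obtain ⟨_, ⟨i, rfl⟩, hi⟩ := hv j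
    refine ⟨i, ?_⟩
    have h1 : v ((Φ j).1 i) = (finTwoEquiv : ZMod 2 ≃ Bool) ((Φ j).2 i) := hi
    show (finTwoEquiv : ZMod 2 ≃ Bool).symm (v ((Φ j).1 i)) = (Φ j).2 i
    rw [h1, Equiv.symm_apply_apply]

end PolyLines
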