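import Pool.Agent.H62.PL.Defs
import Pool.Agent.H96.RE.Defs

/-! From `PolyLines.Refutes` to the false sets of the lines (helper62). -/

set_option autoImplicit false
open scoped Classical

namespace PolyLines

theorem z2 {a b : ZMod 2} : a ≠ b ↔ a = b + 1 := by
  revert a b
  decide

theorem z2' {a : ZMod 2} : 1 + a = 0 ↔ a ≠ 0 := by
  revert a
  decide

theorem DegLE.mem {n d : ℕ} {g : Pt n → ZMod 2} (h : DegLE d g) : g ∈ H96RE.Pol n d := by
  obtain ⟨a, ha⟩ := h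
  have e : g = ∑ T ∈ Finset.univ.filter (fun T : Finset (Fin n) => T.card ≤ d), a T • H96RE.mono T := by
    funext x
    rw [ha x, Finset.sum_apply]
    rfl
  rw [e]
  refine Submodule.sum_mem _ fun T hT => Submodule.smul_mem _ _ (Submodule.subset_span ⟨T, ?_, rfl⟩)
  exact (Finset.mem_filter.1 hT).2

theorem one_mem (n d : ℕ) : (fun _ => 1 : Pt n → ZMod 2) ∈ H96RE.Pol n d := by
  have e : (fun _ => 1 : Pt n → ZMod 2) = H96RE.mono (∅ : Finset (Fin n)) := by
    funext x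
    simp [H96RE.mono]
  rw [e]
  exact Submodule.subset_span ⟨∅, by simp, rfl⟩

theorem DegLE.mono {n d d' : ℕ} {g : Pt n → ZMod 2} (h : DegLE d g) (hd : d ≤ d') : DegLE d' g := by
  obtain ⟨a, ha⟩ := h
  refine ⟨fun T => if T.card ≤ d then a T else 0, fun x => ?_⟩
  rw [ha x]
  have h1 : Finset.univ.filter (fun T : Finset (Fin n) => T.card ≤ d) ⊆
      Finset.univ.filter (fun T : Finset (Fin n) => T.card ≤ d') := by
    intro T hT
    rw [Finset.mem_filter] at hT ⊢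
    exact ⟨hT.1, hT.2.trans hd⟩
  rw [← Finset.sum_subset h1]
  · refine Finset.sum_congr rfl fun T hT => ?_
    change _ = (if T.card ≤ d then a T else 0) * _
    rw [if_pos (Finset.mem_filter.1 hT).2]
  · intro T _ hT
    have h2 : ¬ T.card ≤ d := fun h3 => hT (Finset.mem_filter.2 ⟨Finset.mem_univ _, h3⟩)
    change (if T.card ≤ d then a T else 0) * _ = 0
    rw [if_neg h2, zero_mul]

theorem Refutes.mono_e {n k m e e' t f N : ℕ} {Φ : Fin m → KClause n k} (h : Refutes e t f Φ N) (he : e ≤ e') :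
    Refutes e' t f Φ N := by
  obtain ⟨l, h1, h2, h3⟩ := h
  exact ⟨fun i => ⟨(l i).E, fun g hg => ((l i).hE g hg).mono he, (l i).p, (l i).hp⟩, h1, h2, h3⟩

/-- the variables of the clauses -/
noncomputable def Sv {n k m : ℕ} (Φ : Fin m → KClause n k) (j : Fin m) : Finset (Fin n) := Finset.univ.image (Φ j).1

/-- the values which falsify the clauses -/
noncomputable def sv {n k m : ℕ} (Φ : Fin m → KClause n k) (j : Fin m) : Fin n → ZMod 2 :=
  fun v => if h : ∃ i, (Φ j).1 i = v then (Φ j).2 h.choose + 1 else 0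

theorem sv_apply {n k m : ℕ} (Φ : Fin m → KClause n k) (j : Fin m) (i : Fin k) :
    sv Φ j ((Φ j).1 i) = (Φ j).2 i + 1 := by
  have h : ∃ i', (Φ j).1 i' = (Φ j).1 i := ⟨i, rfl⟩
  unfold sv
  rw [dif_pos h, (Φ j).1.injective h.choose_spec]

theorem Sv_card {n k m : ℕ} (Φ : Fin m → KClause n k) (j : Fin m) : (Sv Φ j).card ≤ k := by
  unfold Sv
  refine Finset.card_image_le.trans ?_
  rw [Finset.card_univ, Fintype.card_fin]

theorem falseSet_eq {n k m : ℕ} (Φ : Fin m → KClause n k) (j : Fin m) :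
    H96RE.falseSet (Sv Φ j) (sv Φ j) = {x | ¬ (Φ j).Holds x} := by
  ext x
  unfold H96RE.falseSet KClause.Holds Sv
  constructor
  · rintro h ⟨i, hi⟩
    have h1 := h ((Φ j).1 i) (Finset.mem_image_of_mem _ (Finset.mem_univ i))
    rw [sv_apply, hi] at h1
    exact z2.2 h1 rfl
  · intro h v hv
    obtain ⟨i, _, rfl⟩ := Finset.mem_image.1 hv
    rw [sv_apply]
    exact z2.1 (fun h1 => h ⟨i, h1⟩)

theorem Refutes.sets {n k m e t f N : ℕ} {Φ : Fin m → KClause n k} (h : Refutes e t f Φ N) :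
    ∃ A : ℕ → Set (Fin n → ZMod 2),
      (∀ i < N, ∃ (P : Set ((Fin n → ZMod 2) → ZMod 2)) (h : (Fin n → ZMod 2) → ZMod 2),
        (∀ p ∈ P, p ∈ H96RE.Pol n e) ∧ h ∈ H96RE.Pol n t ∧ A i = {x | (∀ p ∈ P, p x = 0) ∧ h x = 0}) ∧
      (∀ i < N, (∃ j, A i ⊆ H96RE.falseSet (Sv Φ j) (sv Φ j)) ∨
        ∃ K : Finset ℕ, K.card ≤ f ∧ (∀ j ∈ K, j < i) ∧ ∀ x ∈ A i, ∃ j ∈ K, x ∈ A j) ∧
      ∃ i < N, A i = Set.univ := by
  obtain ⟨l, h1, h2, h3⟩ := h
  refine ⟨fun i => {x | ¬ (l i).Holds x}, ?_, ?_, N - 1, by omega, ?_⟩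
  · intro i _
    refine ⟨(fun g => (fun _ => 1) + g) '' (l i).E, (fun _ => 1) + (l i).p, ?_, ?_, ?_⟩
    · rintro _ ⟨g, hg, rfl⟩
      exact Submodule.add_mem _ (one_mem n e) ((l i).hE g hg).mem
    · exact Submodule.add_mem _ (one_mem n t) (l i).hp.mem
    · ext x
      constructor
      · intro hx
        refine ⟨?_, ?_⟩
        · rintro _ ⟨g, hg, rfl⟩
          exact z2'.2 (fun h4 => hx (Or.inl ⟨g, hg, h4⟩))
        · exact z2'.2 (fun h4 => hx (Or.inr h4))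
      · rintro ⟨h4, h5⟩ (⟨g, hg, h6⟩ | h6)
        · exact z2'.1 (h4 _ ⟨g, hg, rfl⟩) h6
        · exact z2'.1 h5 h6
  · intro i hi
    rcases h3 i hi with ⟨j, hj⟩ | ⟨J, hJ1, hJ2, hJ3⟩
    · left
      refine ⟨j, fun x hx => ?_⟩
      rw [falseSet_eq]
      exact fun h4 => hx (hj x h4)
    · right
      refine ⟨J, hJ1, hJ2, fun x hx => ?_⟩
      by_contra h4
      push Not at h4
      exact hx (hJ3 x (fun j hj => not_not.1 (h4 j hj)))
  · ext x
    exact ⟨fun _ => Set.mem_univ _, fun _ => h2 x⟩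

end PolyLines
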